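import Mathlib

set_option autoImplicit false

open Set Filter Metric MeasureTheory

namespace Pool.Agent.TH279.MZ

/-- The quadratic polynomial `z ^ 2 + c`. -/
def f (c : ℂ) : ℂ → ℂ := fun z => z ^ 2 + c

/-- The orbit of `v` under `f c`. -/
def vv (c v : ℂ) (j : ℕ) : ℂ := (f c)^[j] v

/-- `v_0, ..., v_L` are distinct and `v_L = - v_k`; so `v` is strictly preperiodic, its cycle is
`v_{k+1}, ..., v_L`. -/
structure Orb (L k : ℕ) (c v : ℂ) : Prop where
  lt : k < L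
  inj : ∀ i ≤ L, ∀ j ≤ L, vv c v i = vv c v j → i = j
  opp : vv c v L = - vv c v k

/-- A square root. -/
noncomputable def sqt (z : ℂ) : ℂ := z ^ (1 / 2 : ℂ)

theorem sqt_sq (z : ℂ) : sqt z ^ 2 = z := by
  have h := Complex.cpow_nat_inv_pow z (n := 2) (by norm_num)
  unfold sqt
  rw [show (1 / 2 : ℂ) = ((2 : ℕ) : ℂ)⁻¹ by norm_num]
  exact h

/-- The polynomial with simple zeros at the orbit. -/
noncomputable def QQ (L : ℕ) (c v z : ℂ) : ℂ := ∏ j ∈ Finset.range (L + 1), (z - vv c v j)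

/-- The cofactor. -/
noncomputable def EE (L k : ℕ) (c v y : ℂ) : ℂ := ∏ j ∈ (Finset.range L).erase k, (y + vv c v j)

/-- The sum over the two preimages. -/
noncomputable def TR (c : ℂ) (φ : ℂ → ℝ) (z : ℂ) : ℝ := φ (sqt (z - c)) + φ (-sqt (z - c))

/-- Continuous, nonnegative, and `|e| φ ∘ g` has the local sub-mean value property at `0` for all
analytic germs `g`, `e`. -/
def WL (φ : ℂ → ℝ) : Prop :=
  Continuous φ ∧ (∀ z, 0 ≤ φ z) ∧ ∀ g e : ℂ → ℂ, AnalyticAt ℂ g 0 → AnalyticAt ℂ e 0 →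
    ∀ᶠ r in nhdsWithin (0 : ℝ) (Ioi 0),
      ‖e 0‖ * φ (g 0) ≤ Real.circleAverage (fun ζ => ‖e ζ‖ * φ (g ζ)) 0 r

/-- Level sets. -/
def SL (c : ℂ) (r : ℝ) (n : ℕ) : Set ℂ := {z | ‖(f c)^[n] z‖ ≤ r}

theorem vv_succ (c v : ℂ) (j : ℕ) : vv c v (j + 1) = vv c v j ^ 2 + c := by
  unfold vv
  rw [Function.iterate_succ_apply']
  rfl

theorem vv_zero (c v : ℂ) : vv c v 0 = v := rfl

/-- The key identity. -/
theorem QQ_f {L k : ℕ} {c v : ℂ} (h : Orb L k c v) (y : ℂ) :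
    QQ L c v (f c y) = (f c y - v) * QQ L c v y * EE L k c v y := by
  unfold QQ EE
  rw [Finset.prod_range_succ' (fun j => f c y - vv c v j), vv_zero]
  have h1 : ∀ j ∈ Finset.range L, f c y - vv c v (j + 1) = (y - vv c v j) * (y + vv c v j) := by
    intro j _
    rw [vv_succ]
    unfold f
    ring
  rw [Finset.prod_congr rfl h1, Finset.prod_mul_distrib, Finset.prod_range_succ,
    ← Finset.mul_prod_erase (Finset.range L) (fun j => y + vv c v j) (Finset.mem_range.mpr h.lt),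
    h.opp]
  ring

end Pool.Agent.TH279.MZ
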