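import Mathlib
import Pool.Agent.TH279.MZ.Defs
import Pool.Agent.TH959.J1681
import Pool.Agent.TH699.J1682
import Pool.Agent.TH111.J1683
import Pool.Agent.TH554.J1684
import Pool.Agent.TH626.J1686
import Pool.Agent.TH412.J1687

set_option autoImplicit false
open Set Filter Metric MeasureTheory
namespace Pool.Agent.TH279.MZ

theorem WL_one : WL (fun _ => 1) := Pool.Agent.TH959.J1681.WL_one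

theorem WL_mul {φ : ℂ → ℝ} (h : WL φ) {E : ℂ → ℂ} (hE : Differentiable ℂ E) :
    WL (fun z => ‖E z‖ * φ z) := Pool.Agent.TH959.J1681.WL_mul h hE

theorem continuous_TR {φ : ℂ → ℝ} (h : Continuous φ) (c : ℂ) : Continuous (TR c φ) :=
  Pool.Agent.TH959.J1681.continuous_TR h c

theorem WL_TR {φ : ℂ → ℝ} (h : WL φ) (c : ℂ) : WL (TR c φ) := Pool.Agent.TH959.J1681.WL_TR h c

theorem WL_mean {φ : ℂ → ℝ} (h : WL φ) {ρ : ℝ} (hρ : 1 ≤ ρ) {z : ℂ} (hz : ‖z‖ ≤ ρ) :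
    ENNReal.ofReal (φ z) ≤
      ∫⁻ w in {w : ℂ | ρ + 2 ≤ ‖w‖ ∧ ‖w‖ ≤ 3 * ρ + 3}, ENNReal.ofReal (φ w) :=
  Pool.Agent.TH699.J1682.WL_mean h hρ hz

theorem measurable_sqt : Measurable sqt := Pool.Agent.TH111.J1683.measurable_sqt

theorem dual (c : ℂ) {S : Set ℂ} (hS : MeasurableSet S) {ψ : ℂ → ENNReal} (hψ : Measurable ψ) :
    ∫⁻ y in (f c) ⁻¹' S, ψ y =
      ∫⁻ w in S, (ψ (sqt (w - c)) + ψ (-sqt (w - c))) * ENNReal.ofReal (1 / (4 * ‖w - c‖)) :=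
  Pool.Agent.TH111.J1683.dual c hS hψ

theorem dualQ {L k : ℕ} {c v : ℂ} (h : Orb L k c v) {S : Set ℂ} (hS : MeasurableSet S)
    {φ : ℂ → ℝ} (hφ : Measurable φ) (h0 : ∀ z, 0 ≤ φ z) :
    ∫⁻ y in (f c) ⁻¹' S, ENNReal.ofReal (φ y / ‖QQ L c v y‖) =
      ∫⁻ w in S, ENNReal.ofReal
        (TR c (fun y => ‖f c y - v‖ * ‖EE L k c v y‖ / (4 * ‖y‖ ^ 2) * φ y) w / ‖QQ L c v w‖) :=
  Pool.Agent.TH111.J1683.dualQ h hS hφ h0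

/-- a strictly preperiodic critical point -/
theorem orb_of_preper {c₀ : ℂ}
    (hpp : ∃ m n : ℕ, 1 ≤ n ∧ (f c₀)^[m + n] 0 = (f c₀)^[m] 0)
    (hnp : ∀ p : ℕ, 1 ≤ p → (f c₀)^[p] 0 ≠ 0) : ∃ L k : ℕ, Orb L k c₀ c₀ :=
  Pool.Agent.TH554.J1684.orb_of_preper hpp hnp

/-- the points of the orbit are not critical -/
theorem vv_ne_zero {L k : ℕ} {c₀ : ℂ} (h : Orb L k c₀ c₀) (j : ℕ) : vv c₀ c₀ j ≠ 0 :=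
  Pool.Agent.TH554.J1684.vv_ne_zero h j

/-- persistence of the preperiodic point -/
theorem cont {L k : ℕ} {c₀ : ℂ} (h : Orb L k c₀ c₀)
    (hmu : 1 < ‖∏ j ∈ Finset.Icc (k + 1) L, (2 * vv c₀ c₀ j)‖) :
    ∃ ρ C : ℝ, 0 < ρ ∧ 0 < C ∧ ∀ c : ℂ, ‖c - c₀‖ ≤ ρ →
      ∃ v : ℂ, ‖v - c₀‖ ≤ C * ‖c - c₀‖ ∧ Orb L k c v := Pool.Agent.TH554.J1684.cont h hmu

theorem near_crit (C₂ s₀ : ℝ) (hC₂ : 0 ≤ C₂) (hs₀ : 0 < s₀) : ∃ C : ℝ, 0 < C ∧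
    ∀ (c v : ℂ) (η V δ : ℝ) (S : Set ℂ), MeasurableSet S → 0 < η → ‖c - v‖ ≤ η → 0 ≤ V → 0 < δ →
      η ≤ s₀ / 8 → δ ^ 2 ≤ s₀ / 8 →
      (∀ s : ℝ, η ≤ s → s ≤ s₀ → volume (S ∩ ball v s) ≤ ENNReal.ofReal (C₂ * s ^ 2 * V)) →
      ∫⁻ w in S ∩ ball c (δ ^ 2), ENNReal.ofReal (1 / ‖w - c‖) ≤
        ENNReal.ofReal (C * (δ ^ 2 * V + η * √V)) := Pool.Agent.TH626.J1686.near_crit C₂ s₀ hC₂ hs₀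

theorem perturb {L k : ℕ} {c₀ : ℂ} {h₀ : ℂ → ℝ} (hcont : Continuous h₀) (h1 : ∀ z, 1 ≤ h₀ z)
    {r : ℝ} (hr : 0 < r)
    (hsup : ∀ z : ℂ, ‖z‖ ≤ r + 1 →
      TR c₀ (fun y => ‖EE L k c₀ c₀ y‖ / 4 * h₀ y) z ≤ h₀ z - 1 / 2) :
    ∃ θ : ℝ, 0 < θ ∧ θ < 1 ∧ ∀ δ : ℝ, 0 < δ → ∃ ρ : ℝ, 0 < ρ ∧ ∀ c v : ℂ, ‖c - c₀‖ ≤ ρ →
      ‖v - c₀‖ ≤ ρ → ∀ w : ℂ, ‖w‖ ≤ r → δ ^ 2 ≤ ‖w - c‖ →
        TR c (fun y => ‖f c y - v‖ * ‖EE L k c v y‖ / (4 * ‖y‖ ^ 2) * h₀ y) w ≤ θ * h₀ w :=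
  Pool.Agent.TH412.J1687.perturb hcont h1 hr hsup

end Pool.Agent.TH279.MZ
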