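import Mathlib
import Pool.Agent.TH279.MZ.Base

set_option autoImplicit false

open Set Filter Metric MeasureTheory

namespace Pool.Agent.TH279.MZ

theorem continuous_f (c : ℂ) : Continuous (f c) := by unfold f; fun_prop

theorem differentiable_f (c : ℂ) : Differentiable ℂ (f c) := by unfold f; fun_prop

theorem continuous_fn (c : ℂ) (n : ℕ) : Continuous ((f c)^[n]) := (continuous_f c).iterate n

theorem differentiable_fn (c : ℂ) (n : ℕ) : Differentiable ℂ ((f c)^[n]) :=
  (differentiable_f c).iterate n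

theorem continuous_QQ (L : ℕ) (c v : ℂ) : Continuous (QQ L c v) := by unfold QQ; fun_prop

theorem differentiable_QQ (L : ℕ) (c v : ℂ) : Differentiable ℂ (QQ L c v) := by
  unfold QQ
  fun_prop

theorem differentiable_EE (L k : ℕ) (c v : ℂ) : Differentiable ℂ (EE L k c v) := by
  unfold EE
  fun_prop

theorem continuous_EE (L k : ℕ) (c v : ℂ) : Continuous (EE L k c v) :=
  (differentiable_EE L k c v).continuous

/-- The base transfer operator. -/
noncomputable def LOP (L k : ℕ) (c₀ : ℂ) (φ : ℂ → ℝ) : ℂ → ℝ :=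
  TR c₀ (fun y => ‖EE L k c₀ c₀ y‖ / 4 * φ y)

/-- The iterates of the transfer operator on `1`. -/
noncomputable def uu (L k : ℕ) (c₀ : ℂ) (n : ℕ) : ℂ → ℝ := (LOP L k c₀)^[n] (fun _ => 1)

theorem WL_LOP {L k : ℕ} {c₀ : ℂ} {φ : ℂ → ℝ} (h : WL φ) : WL (LOP L k c₀ φ) := by
  unfold LOP
  apply WL_TR
  have h1 := WL_mul (E := fun y => EE L k c₀ c₀ y / 4) h ((differentiable_EE L k c₀ c₀).div_const 4)
  simpa using h1

theorem uu_succ (L k : ℕ) (c₀ : ℂ) (n : ℕ) : uu L k c₀ (n + 1) = LOP L k c₀ (uu L k c₀ n) := by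
  unfold uu
  rw [Function.iterate_succ_apply']

theorem WL_uu (L k : ℕ) (c₀ : ℂ) (n : ℕ) : WL (uu L k c₀ n) := by
  induction n with
  | zero => exact WL_one
  | succ n ih => rw [uu_succ]; exact WL_LOP ih

theorem uu_cont (L k : ℕ) (c₀ : ℂ) (n : ℕ) : Continuous (uu L k c₀ n) := (WL_uu L k c₀ n).1

theorem uu_nonneg (L k : ℕ) (c₀ : ℂ) (n : ℕ) (z : ℂ) : 0 ≤ uu L k c₀ n z := (WL_uu L k c₀ n).2.1 z

theorem sqt_zero_iff (z : ℂ) : sqt z = 0 ↔ z = 0 := by
  constructor
  · intro h
    have := sqt_sq z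
    rw [h] at this
    simpa using this.symm
  · rintro rfl
    have := sqt_sq 0
    exact pow_eq_zero_iff (by norm_num) |>.mp this

theorem f_sqt (c z : ℂ) : f c (sqt (z - c)) = z := by
  unfold f
  rw [sqt_sq]
  ring

theorem f_neg (c z : ℂ) : f c (-z) = f c z := by
  unfold f
  ring

/-- one step of the duality at the base parameter -/
theorem dual_LOP {L k : ℕ} {c₀ : ℂ} (h : Orb L k c₀ c₀) {S : Set ℂ} (hS : MeasurableSet S)
    {φ : ℂ → ℝ} (hφ : Measurable φ) (h0 : ∀ z, 0 ≤ φ z) :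
    ∫⁻ y in (f c₀) ⁻¹' S, ENNReal.ofReal (φ y / ‖QQ L c₀ c₀ y‖) =
      ∫⁻ w in S, ENNReal.ofReal (LOP L k c₀ φ w / ‖QQ L c₀ c₀ w‖) := by
  rw [dualQ h hS hφ h0]
  apply lintegral_congr_ae
  apply ae_restrict_of_ae
  have h1 : ∀ᵐ w : ℂ, w ≠ c₀ := by
    rw [ae_iff]
    simp
  filter_upwards [h1] with w hw
  have h2 : sqt (w - c₀) ≠ 0 := by
    rw [Ne, sqt_zero_iff, sub_eq_zero]
    exact hw
  have key : ∀ y : ℂ, y ≠ 0 → ‖f c₀ y - c₀‖ * ‖EE L k c₀ c₀ y‖ / (4 * ‖y‖ ^ 2) =
      ‖EE L k c₀ c₀ y‖ / 4 := by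
    intro y hy
    have hy' : ‖y‖ ≠ 0 := norm_ne_zero_iff.mpr hy
    have h3 : ‖f c₀ y - c₀‖ = ‖y‖ ^ 2 := by
      unfold f
      rw [add_sub_cancel_right, norm_pow]
    rw [h3]
    field_simp
  unfold LOP TR
  beta_reduce
  rw [key _ h2, key _ (neg_ne_zero.mpr h2)]

theorem measurable_LOP {L k : ℕ} {c₀ : ℂ} {φ : ℂ → ℝ} (hφ : Measurable φ) :
    Measurable (LOP L k c₀ φ) := by
  unfold LOP TR
  have h1 : Measurable (fun z : ℂ => sqt (z - c₀)) := measurable_sqt.comp (measurable_id.sub_const c₀)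
  have h2 : Measurable (fun y => ‖EE L k c₀ c₀ y‖ / 4 * φ y) :=
    ((continuous_EE L k c₀ c₀).norm.measurable.div_const 4).mul hφ
  exact (h2.comp h1).add (h2.comp h1.neg)

theorem dual_uu {L k : ℕ} {c₀ : ℂ} (h : Orb L k c₀ c₀) (n : ℕ) {S : Set ℂ} (hS : MeasurableSet S) :
    ∫⁻ y in ((f c₀)^[n]) ⁻¹' S, ENNReal.ofReal (1 / ‖QQ L c₀ c₀ y‖) =
      ∫⁻ w in S, ENNReal.ofReal (uu L k c₀ n w / ‖QQ L c₀ c₀ w‖) := by
  induction n generalizing S with
  | zero => rfl
  | succ n ih =>
    have h1 : (f c₀)^[n + 1] ⁻¹' S = ((f c₀)^[n]) ⁻¹' ((f c₀) ⁻¹' S) := by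
      rw [Function.iterate_succ', preimage_comp]
    rw [h1, ih ((continuous_f c₀).measurable hS),
      dual_LOP h hS (uu_cont L k c₀ n).measurable (uu_nonneg L k c₀ n), uu_succ]

/-- polar integral through the duality -/
theorem inv_norm_int (a : ℂ) {R : ℝ} (hR : 0 < R) :
    ∫⁻ w in ball a R, ENNReal.ofReal (1 / ‖w - a‖) ≤ ENNReal.ofReal (8 * R) := by
  have h1 := dual a (S := ball a R) measurableSet_ball (ψ := fun _ => 1) measurable_const
  have h2 : (f a) ⁻¹' ball a R = ball 0 (√R) := by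
    ext y
    simp only [mem_preimage, mem_ball, dist_zero_right]
    unfold f
    rw [dist_eq_norm, add_sub_cancel_right, norm_pow]
    exact (Real.lt_sqrt (norm_nonneg _)).symm
  rw [h2, lintegral_one, Measure.restrict_apply_univ, Complex.volume_ball] at h1
  have h3 : ∀ w : ℂ, ENNReal.ofReal (1 / ‖w - a‖) =
      2 * ((1 + 1) * ENNReal.ofReal (1 / (4 * ‖w - a‖))) := by
    intro w
    rw [← mul_assoc]
    have : (2 : ENNReal) * (1 + 1) = ENNReal.ofReal 4 := by
      rw [one_add_one_eq_two]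
      norm_num
    rw [this, ← ENNReal.ofReal_mul (by norm_num)]
    congr 1
    by_cases h : ‖w - a‖ = 0
    · rw [h]; simp
    · field_simp
  calc ∫⁻ w in ball a R, ENNReal.ofReal (1 / ‖w - a‖)
      = 2 * ∫⁻ w in ball a R, (1 + 1) * ENNReal.ofReal (1 / (4 * ‖w - a‖)) := by
        rw [← lintegral_const_mul' _ _ (by norm_num)]
        exact lintegral_congr fun w => h3 w
    _ = 2 * (ENNReal.ofReal (√R) ^ 2 * NNReal.pi) := by rw [h1]
    _ ≤ ENNReal.ofReal (8 * R) := by
        have h4 : (NNReal.pi : ENNReal) = ENNReal.ofReal Real.pi := by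
          rw [ENNReal.ofReal, Real.toNNReal_of_nonneg Real.pi_pos.le]
          rfl
        rw [← ENNReal.ofReal_pow (Real.sqrt_nonneg _), Real.sq_sqrt hR.le, h4,
          show (2 : ENNReal) = ENNReal.ofReal 2 by norm_num, ← ENNReal.ofReal_mul hR.le,
          ← ENNReal.ofReal_mul (by norm_num)]
        apply ENNReal.ofReal_le_ofReal
        nlinarith [Real.pi_le_four]

/-- the norm of a product of differences is controlled by the distance to the nearest node -/
theorem inv_QQ_le {L : ℕ} {c v : ℂ} {d : ℝ} (hd : 0 < d)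
    (hsep : ∀ i ≤ L, ∀ j ≤ L, i ≠ j → 2 * d ≤ ‖vv c v i - vv c v j‖) (z : ℂ) :
    1 / ‖QQ L c v z‖ ≤ ∑ j ∈ Finset.range (L + 1), (1 / d) ^ L * (1 / ‖z - vv c v j‖) := by
  -- the nearest node
  obtain ⟨j, hj, hmin⟩ := Finset.exists_min_image (Finset.range (L + 1)) (fun j => ‖z - vv c v j‖)
    ⟨0, by simp⟩
  have hfar : ∀ i ∈ (Finset.range (L + 1)).erase j, d ≤ ‖z - vv c v i‖ := by
    intro i hi
    rw [Finset.mem_erase] at hi
    have h1 := hsep i (by have := Finset.mem_range.mp hi.2; omega) j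
      (by have := Finset.mem_range.mp hj; omega) hi.1
    have h2 := hmin i hi.2
    have h3 : ‖vv c v i - vv c v j‖ ≤ ‖z - vv c v j‖ + ‖z - vv c v i‖ := by
      rw [show vv c v i - vv c v j = (z - vv c v j) - (z - vv c v i) by ring]
      exact norm_sub_le _ _
    linarith
  have h4 : d ^ L * ‖z - vv c v j‖ ≤ ‖QQ L c v z‖ := by
    unfold QQ
    rw [norm_prod, ← Finset.mul_prod_erase _ _ hj, mul_comm]
    apply mul_le_mul_of_nonneg_left _ (norm_nonneg _)
    have h5 : ((Finset.range (L + 1)).erase j).card = L := by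
      rw [Finset.card_erase_of_mem hj, Finset.card_range]
      omega
    calc d ^ L = ∏ _i ∈ (Finset.range (L + 1)).erase j, d := by rw [Finset.prod_const, h5]
      _ ≤ _ := Finset.prod_le_prod (fun _ _ => hd.le) hfar
  refine le_trans ?_ (Finset.single_le_sum (f := fun j => (1 / d) ^ L * (1 / ‖z - vv c v j‖))
    (fun i _ => by positivity) hj)
  by_cases h0 : ‖z - vv c v j‖ = 0
  · have : ‖QQ L c v z‖ = 0 := by
      rw [norm_eq_zero]
      unfold QQ
      exact Finset.prod_eq_zero hj (norm_eq_zero.mp h0)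
    simp [this, h0]
  · have h6 : 0 < ‖z - vv c v j‖ := lt_of_le_of_ne (norm_nonneg _) (Ne.symm h0)
    calc 1 / ‖QQ L c v z‖ ≤ 1 / (d ^ L * ‖z - vv c v j‖) :=
          one_div_le_one_div_of_le (by positivity) h4
      _ = _ := by rw [one_div_pow]; field_simp

/-- Uniform bound of the total mass. -/
theorem mass_bound {L : ℕ} {c v : ℂ} {d r M : ℝ} (hd : 0 < d) (hr : 0 < r) (hM : 0 < M)
    (hsep : ∀ i ≤ L, ∀ j ≤ L, i ≠ j → 2 * d ≤ ‖vv c v i - vv c v j‖)
    (hb : ∀ i ≤ L, ‖vv c v i‖ ≤ M) :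
    ∫⁻ z in closedBall 0 r, ENNReal.ofReal (1 / ‖QQ L c v z‖) ≤
      ENNReal.ofReal ((L + 1) * ((1 / d) ^ L * (8 * (r + M + 1)))) := by
  calc ∫⁻ z in closedBall 0 r, ENNReal.ofReal (1 / ‖QQ L c v z‖)
      ≤ ∫⁻ z in closedBall 0 r, ∑ j ∈ Finset.range (L + 1),
          ENNReal.ofReal ((1 / d) ^ L) * ENNReal.ofReal (1 / ‖z - vv c v j‖) := by
        apply lintegral_mono
        intro z
        refine (ENNReal.ofReal_le_ofReal (inv_QQ_le hd hsep z)).trans ?_
        rw [ENNReal.ofReal_sum_of_nonneg (fun i _ => by positivity)]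
        apply le_of_eq
        apply Finset.sum_congr rfl
        intro j _
        rw [ENNReal.ofReal_mul (by positivity)]
    _ = ∑ j ∈ Finset.range (L + 1), ENNReal.ofReal ((1 / d) ^ L) *
          ∫⁻ z in closedBall 0 r, ENNReal.ofReal (1 / ‖z - vv c v j‖) := by
        rw [lintegral_finsetSum']
        · apply Finset.sum_congr rfl
          intro j _
          rw [lintegral_const_mul' _ _ ENNReal.ofReal_ne_top]
        · intro j _
          apply AEMeasurable.const_mul
          apply Measurable.aemeasurable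
          apply ENNReal.measurable_ofReal.comp
          exact (measurable_const.div ((continuous_id.sub continuous_const).norm.measurable))
    _ ≤ ∑ j ∈ Finset.range (L + 1), ENNReal.ofReal ((1 / d) ^ L) *
          ENNReal.ofReal (8 * (r + M + 1)) := by
        apply Finset.sum_le_sum
        intro j hj
        gcongr
        refine le_trans (lintegral_mono_set ?_) (inv_norm_int (vv c v j) (R := r + M + 1) (by linarith))
        intro z hz
        rw [mem_closedBall_zero_iff] at hz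
        rw [mem_ball, dist_eq_norm]
        have h1 := hb j (by have := Finset.mem_range.mp hj; omega)
        have h2 := norm_sub_le z (vv c v j)
        linarith
    _ = _ := by
        rw [Finset.sum_const, Finset.card_range, nsmul_eq_mul, ← ENNReal.ofReal_mul (by positivity),
          ← ENNReal.ofReal_natCast, ← ENNReal.ofReal_mul (by positivity)]
        push_cast
        rfl

end Pool.Agent.TH279.MZ
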