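import Mathlib
import Pool.Agent.TH279.MZ.Decay

set_option autoImplicit false

open Set Filter Metric MeasureTheory

namespace Pool.Agent.TH279.MZ

/-- the annulus -/
def WW (ρ : ℝ) : Set ℂ := {w : ℂ | ρ + 2 ≤ ‖w‖ ∧ ‖w‖ ≤ 3 * ρ + 3}

theorem esc_step {c : ℂ} {ρ : ℝ} (hρ : ‖c‖ + 1 ≤ ρ) {z : ℂ} (hz : ρ + 2 ≤ ‖z‖) :
    3 * ρ + 3 < ‖f c z‖ := by
  have hc := norm_nonneg c
  have h1 : ‖z‖ ^ 2 ≤ ‖f c z‖ + ‖c‖ := by
    rw [← norm_pow]
    calc ‖z ^ 2‖ = ‖f c z - c‖ := by congr 1; unfold f; ring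
      _ ≤ _ := norm_sub_le _ _
  nlinarith

theorem esc_iter {c : ℂ} {ρ : ℝ} (hρ : ‖c‖ + 1 ≤ ρ) {z : ℂ} (hz : ρ + 2 ≤ ‖z‖) (n : ℕ) :
    3 * ρ + 3 < ‖(f c)^[n + 1] z‖ := by
  have hc := norm_nonneg c
  induction n with
  | zero => exact esc_step hρ hz
  | succ n ih =>
    rw [Function.iterate_succ_apply']
    exact esc_step hρ (by linarith)

theorem measurableSet_WW (ρ : ℝ) : MeasurableSet (WW ρ) :=
  (measurableSet_le measurable_const continuous_norm.measurable).inter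
    (measurableSet_le continuous_norm.measurable measurable_const)

theorem pre_disj {c : ℂ} {ρ : ℝ} (hρ : ‖c‖ + 1 ≤ ρ) :
    Pairwise (Function.onFun Disjoint fun n : ℕ => ((f c)^[n]) ⁻¹' WW ρ) := by
  have key : ∀ m n : ℕ, m < n → Disjoint (((f c)^[m]) ⁻¹' WW ρ) (((f c)^[n]) ⁻¹' WW ρ) := by
    intro m n hmn
    rw [Set.disjoint_left]
    intro z hz hz'
    obtain ⟨j, rfl⟩ : ∃ j, n = (j + 1) + m := ⟨n - m - 1, by omega⟩
    have h1 : ρ + 2 ≤ ‖(f c)^[m] z‖ := hz.1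
    have h2 : ‖(f c)^[(j + 1) + m] z‖ ≤ 3 * ρ + 3 := hz'.2
    rw [Function.iterate_add_apply] at h2
    have := esc_iter hρ h1 j
    linarith
  intro m n hmn
  rcases lt_or_gt_of_ne hmn with h | h
  · exact key m n h
  · exact (key n m h).symm

theorem pre_sub {c : ℂ} {ρ : ℝ} (hρ : ‖c‖ + 1 ≤ ρ) (n : ℕ) :
    ((f c)^[n]) ⁻¹' WW ρ ⊆ closedBall 0 (3 * ρ + 3) := by
  have hc := norm_nonneg c
  intro z hz
  rw [mem_closedBall_zero_iff]
  by_contra hcon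
  rw [not_le] at hcon
  cases n with
  | zero => exact absurd hz.2 (not_le.mpr hcon)
  | succ n =>
    have := esc_iter hρ (z := z) (by linarith) n
    exact absurd hz.2 (not_le.mpr this)

/-- separation constant -/
theorem exists_sep {L k : ℕ} {c v : ℂ} (h : Orb L k c v) :
    ∃ d : ℝ, 0 < d ∧ ∀ i ≤ L, ∀ j ≤ L, i ≠ j → 2 * d ≤ ‖vv c v i - vv c v j‖ := by
  classical
  set s := ((Finset.range (L + 1)) ×ˢ (Finset.range (L + 1))).filter (fun p => p.1 ≠ p.2) with hs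
  have hne : s.Nonempty := ⟨(0, 1), by
    have := h.lt
    simp only [hs, Finset.mem_filter, Finset.mem_product, Finset.mem_range]
    omega⟩
  obtain ⟨p, hp, hmin⟩ := Finset.exists_min_image s (fun p => ‖vv c v p.1 - vv c v p.2‖) hne
  refine ⟨‖vv c v p.1 - vv c v p.2‖ / 2, ?_, ?_⟩
  · simp only [hs, Finset.mem_filter, Finset.mem_product, Finset.mem_range] at hp
    have h1 : vv c v p.1 ≠ vv c v p.2 := fun h2 =>
      hp.2 (h.inj p.1 (by omega) p.2 (by omega) h2)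
    have := norm_pos_iff.mpr (sub_ne_zero.mpr h1)
    positivity
  · intro i hi j hj hij
    have := hmin (i, j) (by
      simp only [hs, Finset.mem_filter, Finset.mem_product, Finset.mem_range]
      exact ⟨⟨by omega, by omega⟩, hij⟩)
    simpa [mul_div_cancel₀] using this

theorem exists_bd (L : ℕ) (c v : ℂ) : ∃ M : ℝ, 0 < M ∧ ∀ i ≤ L, ‖vv c v i‖ ≤ M := by
  refine ⟨1 + ∑ i ∈ Finset.range (L + 1), ‖vv c v i‖, by positivity, ?_⟩
  intro i hi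
  have := Finset.single_le_sum (f := fun i => ‖vv c v i‖) (s := Finset.range (L + 1))
    (fun i _ => norm_nonneg _) (Finset.mem_range.mpr (by omega : i < L + 1))
  linarith

theorem tendsto_W {L k : ℕ} {c₀ : ℂ} (h : Orb L k c₀ c₀) {ρ : ℝ} (hρ : ‖c₀‖ + 1 ≤ ρ) :
    Tendsto (fun n => ∫⁻ w in WW ρ, ENNReal.ofReal (uu L k c₀ n w / ‖QQ L c₀ c₀ w‖)) atTop
      (nhds 0) := by
  have hc := norm_nonneg c₀
  obtain ⟨d, hd, hsep⟩ := exists_sep h
  obtain ⟨M, hM, hb⟩ := exists_bd L c₀ c₀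
  apply ENNReal.tendsto_atTop_zero_of_tsum_ne_top
  have h1 : ∑' n, ∫⁻ w in WW ρ, ENNReal.ofReal (uu L k c₀ n w / ‖QQ L c₀ c₀ w‖) =
      ∫⁻ y in ⋃ n : ℕ, ((f c₀)^[n]) ⁻¹' WW ρ, ENNReal.ofReal (1 / ‖QQ L c₀ c₀ y‖) := by
    rw [lintegral_iUnion (fun n => (continuous_fn c₀ n).measurable (measurableSet_WW ρ)) (pre_disj hρ)]
    exact tsum_congr fun n => (dual_uu h n (measurableSet_WW ρ)).symm
  rw [h1]
  apply ne_top_of_le_ne_top _ ((lintegral_mono_set (iUnion_subset fun n => pre_sub hρ n)).trans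
    (mass_bound hd (by linarith) hM hsep hb))
  exact ENNReal.ofReal_ne_top

theorem QQ_zero_iff (L : ℕ) (c v z : ℂ) : QQ L c v z = 0 ↔ ∃ j ≤ L, z = vv c v j := by
  unfold QQ
  rw [Finset.prod_eq_zero_iff]
  constructor
  · rintro ⟨j, hj, h⟩
    exact ⟨j, by have := Finset.mem_range.mp hj; omega, sub_eq_zero.mp h⟩
  · rintro ⟨j, hj, h⟩
    exact ⟨j, Finset.mem_range.mpr (by omega), sub_eq_zero.mpr h⟩

theorem ae_QQ_ne (L : ℕ) (c v : ℂ) : ∀ᵐ z : ℂ, QQ L c v z ≠ 0 := by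
  rw [ae_iff]
  have h1 : {z : ℂ | ¬ QQ L c v z ≠ 0} ⊆ (Finset.range (L + 1)).image (vv c v) := by
    intro z hz
    simp only [ne_eq, not_not, mem_setOf_eq] at hz
    obtain ⟨j, hj, h⟩ := (QQ_zero_iff L c v z).mp hz
    simp only [Finset.coe_image, mem_image, Finset.coe_range, mem_Iio]
    exact ⟨j, by omega, h.symm⟩
  exact measure_mono_null h1 (Finset.measure_zero _ _)

theorem tendsto_W' {L k : ℕ} {c₀ : ℂ} (h : Orb L k c₀ c₀) {ρ : ℝ} (hρ : ‖c₀‖ + 1 ≤ ρ) :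
    Tendsto (fun n => ∫⁻ w in WW ρ, ENNReal.ofReal (uu L k c₀ n w)) atTop (nhds 0) := by
  obtain ⟨K, hK⟩ := (isCompact_closedBall (0 : ℂ) (3 * ρ + 3)).exists_bound_of_continuousOn
    (continuous_QQ L c₀ c₀).continuousOn
  have h1 : ∀ n, ∫⁻ w in WW ρ, ENNReal.ofReal (uu L k c₀ n w) ≤ ENNReal.ofReal K *
      ∫⁻ w in WW ρ, ENNReal.ofReal (uu L k c₀ n w / ‖QQ L c₀ c₀ w‖) := by
    intro n
    rw [← lintegral_const_mul' _ _ ENNReal.ofReal_ne_top]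
    apply lintegral_mono_ae
    rw [ae_restrict_iff' (measurableSet_WW ρ)]
    filter_upwards [ae_QQ_ne L c₀ c₀] with w hw hwW
    have h2 : ‖QQ L c₀ c₀ w‖ ≤ K := hK w (mem_closedBall_zero_iff.mpr hwW.2)
    have h3 : 0 < ‖QQ L c₀ c₀ w‖ := norm_pos_iff.mpr hw
    rw [← ENNReal.ofReal_mul (h3.le.trans h2)]
    apply ENNReal.ofReal_le_ofReal
    have h4 := uu_nonneg L k c₀ n w
    rw [mul_div_assoc', le_div_iff₀ h3]
    nlinarith
  have h2 : Tendsto (fun n => ENNReal.ofReal K *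
      ∫⁻ w in WW ρ, ENNReal.ofReal (uu L k c₀ n w / ‖QQ L c₀ c₀ w‖)) atTop (nhds 0) := by
    have := ENNReal.Tendsto.const_mul (tendsto_W h hρ) (a := ENNReal.ofReal K)
      (Or.inr ENNReal.ofReal_ne_top)
    simpa using this
  exact tendsto_of_tendsto_of_tendsto_of_le_of_le tendsto_const_nhds h2 (fun _ => bot_le) h1

/-- **Decay.** `𝓛^n 1` tends to `0` locally uniformly. -/
theorem decay {L k : ℕ} {c₀ : ℂ} (h : Orb L k c₀ c₀) (R : ℝ) {ε : ℝ} (hε : 0 < ε) :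
    ∃ N : ℕ, ∀ n ≥ N, ∀ z : ℂ, ‖z‖ ≤ R → uu L k c₀ n z ≤ ε := by
  set ρ := max R (‖c₀‖ + 1) with hρ
  have hρ1 : ‖c₀‖ + 1 ≤ ρ := le_max_right _ _
  have h1 := tendsto_W' h hρ1
  have h2 := (ENNReal.tendsto_atTop_zero.mp h1) (ENNReal.ofReal ε) (by positivity)
  obtain ⟨N, hN⟩ := h2
  refine ⟨N, fun n hn z hz => ?_⟩
  have h3 := WL_mean (WL_uu L k c₀ n) (ρ := ρ) (by linarith [norm_nonneg c₀])
    (hz.trans (le_max_left _ _))
  have h4 := h3.trans (hN n hn)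
  exact (ENNReal.ofReal_le_ofReal_iff hε.le).mp h4

end Pool.Agent.TH279.MZ
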