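import Mathlib
import Pool.Agent.TH279.MZ.Decay2

set_option autoImplicit false

open Set Filter Metric MeasureTheory

namespace Pool.Agent.TH279.MZ

theorem vv_period {L k : ℕ} {c v : ℂ} (h : Orb L k c v) (j : ℕ) (hj : k + 1 ≤ j) :
    vv c v (j + (L - k)) = vv c v j := by
  obtain ⟨i, rfl⟩ : ∃ i, j = k + 1 + i := ⟨j - (k + 1), by omega⟩
  clear hj
  have hlt := h.lt
  induction i with
  | zero =>
    have h1 : k + 1 + 0 + (L - k) = L + 1 := by omega
    rw [h1, vv_succ, h.opp, neg_sq, add_zero, ← vv_succ]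
  | succ i ih =>
    have h1 : k + 1 + (i + 1) + (L - k) = (k + 1 + i + (L - k)) + 1 := by omega
    rw [h1, vv_succ, ih, show k + 1 + (i + 1) = (k + 1 + i) + 1 by ring, ← vv_succ]

theorem LOP_ge {L k : ℕ} {c₀ : ℂ} {φ : ℂ → ℝ} (h0 : ∀ z, 0 ≤ φ z) (y : ℂ) :
    ‖EE L k c₀ c₀ y‖ / 4 * φ y ≤ LOP L k c₀ φ (f c₀ y) := by
  have h1 : sqt (f c₀ y - c₀) ^ 2 = y ^ 2 := by
    rw [sqt_sq]
    unfold f
    ring
  unfold LOP TR
  beta_reduce
  rcases sq_eq_sq_iff_eq_or_eq_neg.mp h1 with h2 | h2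
  · rw [h2]
    have : 0 ≤ ‖EE L k c₀ c₀ (-y)‖ / 4 * φ (-y) := mul_nonneg (by positivity) (h0 _)
    linarith
  · rw [h2, neg_neg]
    have : 0 ≤ ‖EE L k c₀ c₀ (-y)‖ / 4 * φ (-y) := mul_nonneg (by positivity) (h0 _)
    linarith

theorem f_vv (c v : ℂ) (j : ℕ) : f c (vv c v j) = vv c v (j + 1) := by
  rw [vv_succ]
  rfl

theorem uu_ge {L k : ℕ} {c₀ : ℂ} (n : ℕ) :
    ∏ i ∈ Finset.range n, (‖EE L k c₀ c₀ (vv c₀ c₀ (k + 1 + i))‖ / 4) ≤
      uu L k c₀ n (vv c₀ c₀ (k + 1 + n)) := by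
  induction n with
  | zero => simp [uu]
  | succ n ih =>
    rw [Finset.prod_range_succ, uu_succ, show k + 1 + (n + 1) = (k + 1 + n) + 1 by ring, ← f_vv]
    refine le_trans ?_ (LOP_ge (uu_nonneg L k c₀ n) _)
    rw [mul_comm]
    exact mul_le_mul_of_nonneg_left ih (by positivity)

theorem QQ_vv {L : ℕ} {c v : ℂ} (j : ℕ) (hj : j ≤ L) :
    QQ L c v (vv c v j) = 0 := (QQ_zero_iff L c v _).mpr ⟨j, hj, rfl⟩

theorem deriv_QQ_ne {L k : ℕ} {c v : ℂ} (h : Orb L k c v) (j : ℕ) (hj : j ≤ L) :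
    deriv (QQ L c v) (vv c v j) ≠ 0 := by
  have hj' : j ∈ Finset.range (L + 1) := Finset.mem_range.mpr (by omega)
  have h1 : QQ L c v = fun z => (z - vv c v j) *
      ∏ i ∈ (Finset.range (L + 1)).erase j, (z - vv c v i) := by
    funext z
    unfold QQ
    exact (Finset.mul_prod_erase _ (fun i => z - vv c v i) hj').symm
  have h2 : DifferentiableAt ℂ (fun z => ∏ i ∈ (Finset.range (L + 1)).erase j, (z - vv c v i))
      (vv c v j) := by fun_prop
  have h3 : HasDerivAt (QQ L c v) (1 * (∏ i ∈ (Finset.range (L + 1)).erase j,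
      (vv c v j - vv c v i)) + (vv c v j - vv c v j) * deriv (fun z =>
        ∏ i ∈ (Finset.range (L + 1)).erase j, (z - vv c v i)) (vv c v j)) (vv c v j) := by
    rw [h1]
    exact ((hasDerivAt_id _).sub_const _).mul h2.hasDerivAt
  rw [h3.deriv, sub_self, zero_mul, add_zero, one_mul, Finset.prod_ne_zero_iff]
  intro i hi
  rw [Finset.mem_erase, Finset.mem_range] at hi
  rw [sub_ne_zero]
  intro h4
  exact hi.1 (h.inj j hj i (by omega) h4).symm

theorem deriv_rel {L k : ℕ} {c₀ : ℂ} (h : Orb L k c₀ c₀) (j : ℕ) (hj : j ≤ L) :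
    deriv (QQ L c₀ c₀) (vv c₀ c₀ (j + 1)) * (2 * vv c₀ c₀ j) =
      vv c₀ c₀ j ^ 2 * deriv (QQ L c₀ c₀) (vv c₀ c₀ j) * EE L k c₀ c₀ (vv c₀ c₀ j) := by
  set y := vv c₀ c₀ j with hy
  have h1 : HasDerivAt (fun y => QQ L c₀ c₀ (f c₀ y))
      (deriv (QQ L c₀ c₀) (f c₀ y) * (2 * y)) y := by
    have hf : HasDerivAt (f c₀) (2 * y) y := by
      have := (hasDerivAt_pow 2 y).add_const c₀
      simp only [Nat.cast_ofNat, Nat.add_one_sub_one, pow_one] at this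
      exact this
    exact HasDerivAt.comp y (differentiable_QQ L c₀ c₀ (f c₀ y)).hasDerivAt hf
  have h2 : HasDerivAt (fun y => (f c₀ y - c₀) * QQ L c₀ c₀ y * EE L k c₀ c₀ y)
      (((2 * y) * QQ L c₀ c₀ y + (f c₀ y - c₀) * deriv (QQ L c₀ c₀) y) * EE L k c₀ c₀ y +
        (f c₀ y - c₀) * QQ L c₀ c₀ y * deriv (EE L k c₀ c₀) y) y := by
    have hf : HasDerivAt (fun y => f c₀ y - c₀) (2 * y) y := by
      have := hasDerivAt_pow 2 y
      simpa [f] using this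
    exact (hf.mul (differentiable_QQ L c₀ c₀ y).hasDerivAt).mul
      (differentiable_EE L k c₀ c₀ y).hasDerivAt
  have h3 : (fun y => QQ L c₀ c₀ (f c₀ y)) = fun y => (f c₀ y - c₀) * QQ L c₀ c₀ y * EE L k c₀ c₀ y :=
    funext fun y => QQ_f h y
  have h4 := h1.unique (h3 ▸ h2)
  rw [f_vv] at h4
  rw [h4, QQ_vv j hj, ← f_vv, ← hy]
  unfold f
  ring

/-- the cycle is repelling -/
theorem repelling {L k : ℕ} {c₀ : ℂ} (h : Orb L k c₀ c₀) :
    1 < ‖∏ j ∈ Finset.Icc (k + 1) L, (2 * vv c₀ c₀ j)‖ := by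
  by_contra hcon
  rw [not_lt] at hcon
  have hlt := h.lt
  set p := L - k with hp
  have hp1 : 1 ≤ p := by omega
  set μ := ‖∏ j ∈ Finset.Icc (k + 1) L, (2 * vv c₀ c₀ j)‖ with hμ
  have hper : ∀ N i, vv c₀ c₀ (k + 1 + (p * N + i)) = vv c₀ c₀ (k + 1 + i) := by
    intro N
    induction N with
    | zero => intro i; simp
    | succ N ih =>
      intro i
      rw [show k + 1 + (p * (N + 1) + i) = (k + 1 + (p * N + i)) + p by ring,
        vv_period h _ (by omega), ih]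
  -- one period
  have h1 : ∏ i ∈ Finset.range p, (2 * vv c₀ c₀ (k + 1 + i)) =
      ∏ j ∈ Finset.Icc (k + 1) L, (2 * vv c₀ c₀ j) := by
    have h2 : Finset.Icc (k + 1) L = Finset.Ico (k + 1) (L + 1) := by
      ext x
      simp only [Finset.mem_Icc, Finset.mem_Ico]
      omega
    rw [h2, Finset.prod_Ico_eq_prod_range, show L + 1 - (k + 1) = p by omega]
  have hne : ∀ j, 0 < ‖vv c₀ c₀ j‖ := fun j => norm_pos_iff.mpr (vv_ne_zero h j)
  set q : ℕ → ℝ := fun n => ‖deriv (QQ L c₀ c₀) (vv c₀ c₀ (k + 1 + n))‖ with hq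
  have h2 : ∀ n ≤ p, (∏ i ∈ Finset.range n, (‖EE L k c₀ c₀ (vv c₀ c₀ (k + 1 + i))‖ / 4)) *
      (∏ i ∈ Finset.range n, ‖2 * vv c₀ c₀ (k + 1 + i)‖) * q 0 = q n := by
    intro n
    induction n with
    | zero => intro _; simp
    | succ n ih =>
      intro hn
      have h3 := ih (by omega)
      have h4 := congrArg norm (deriv_rel h (k + 1 + n) (by omega))
      rw [norm_mul, norm_mul, norm_mul, norm_mul, norm_pow] at h4
      have h5 : q (n + 1) * (‖(2 : ℂ)‖ * ‖vv c₀ c₀ (k + 1 + n)‖) =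
          ‖vv c₀ c₀ (k + 1 + n)‖ ^ 2 * q n * ‖EE L k c₀ c₀ (vv c₀ c₀ (k + 1 + n))‖ := h4
      rw [Complex.norm_ofNat] at h5
      have h6 := hne (k + 1 + n)
      rw [Finset.prod_range_succ, Finset.prod_range_succ, norm_mul, Complex.norm_ofNat]
      have h7 : q (n + 1) = q n * (‖EE L k c₀ c₀ (vv c₀ c₀ (k + 1 + n))‖ / 4) *
          (2 * ‖vv c₀ c₀ (k + 1 + n)‖) := by
        have h8 : q (n + 1) * (2 * ‖vv c₀ c₀ (k + 1 + n)‖) =
            (q n * (‖EE L k c₀ c₀ (vv c₀ c₀ (k + 1 + n))‖ / 4) *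
              (2 * ‖vv c₀ c₀ (k + 1 + n)‖)) * (2 * ‖vv c₀ c₀ (k + 1 + n)‖) := by
          rw [h5]
          ring
        exact mul_right_cancel₀ (by positivity) h8
      rw [h7, ← h3]
      ring
  have h3 := h2 p le_rfl
  have hq0 : 0 < q 0 := norm_pos_iff.mpr (deriv_QQ_ne h (k + 1 + 0) (by omega))
  have hqp : q p = q 0 := by
    have := hper 1 0
    simp only [mul_one, add_zero] at this
    simp only [hq, add_zero]
    rw [this]
  set P := ∏ i ∈ Finset.range p, (‖EE L k c₀ c₀ (vv c₀ c₀ (k + 1 + i))‖ / 4) with hP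
  have h4 : P * μ = 1 := by
    rw [← norm_prod, h1, hqp] at h3
    have : (P * μ) * q 0 = 1 * q 0 := by rw [one_mul]; exact h3
    exact mul_right_cancel₀ hq0.ne' this
  have hμ0 : 0 ≤ μ := norm_nonneg _
  have hP1 : 1 ≤ P := by
    have hP0 : 0 ≤ P := Finset.prod_nonneg fun i _ => by positivity
    nlinarith
  have h5 : ∀ N, ∏ i ∈ Finset.range (p * N), (‖EE L k c₀ c₀ (vv c₀ c₀ (k + 1 + i))‖ / 4) =
      P ^ N := by
    intro N
    induction N with
    | zero => simp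
    | succ N ih =>
      rw [Nat.mul_succ, Finset.prod_range_add, ih, pow_succ]
      congr 1
      apply Finset.prod_congr rfl
      intro i _
      rw [hper]
  obtain ⟨N, hN⟩ := decay h ‖vv c₀ c₀ (k + 1)‖ (ε := 1 / 2) (by norm_num)
  have h6 := hN (p * N) (by nlinarith) (vv c₀ c₀ (k + 1)) le_rfl
  have h7 := uu_ge (L := L) (k := k) (c₀ := c₀) (p * N)
  have h8 := hper N 0
  simp only [add_zero] at h8
  rw [h5, h8] at h7
  have h9 : 1 ≤ P ^ N := one_le_pow₀ hP1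
  linarith

end Pool.Agent.TH279.MZ
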