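import Mathlib
import Pool.Agent.TH279.MZ.Unif
import Pool.Agent.TH136.Tip.Push

set_option autoImplicit false

open Set Filter Metric MeasureTheory

namespace Pool.Agent.TH279.MZ

open Pool.Agent.TH136.Tip (lintegral_holo)

theorem vol_SL_ne_top {c : ℂ} {r : ℝ} (hc : ‖c‖ ≤ 3) (hr : 4 ≤ r) (n : ℕ) :
    volume (SL c r n) ≠ ⊤ :=
  ne_top_of_le_ne_top (isCompact_closedBall (0 : ℂ) r).measure_lt_top.ne
    (measure_mono (SL_sub hc hr n))

theorem vol_scale {c v : ℂ} {r s κ : ℝ} {n m N : ℕ} (hs : 0 < s) (hκ : 0 < κ) (hc : ‖c‖ ≤ 3)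
    (hr : 4 ≤ r) (hn : n ≤ m) (hinj : InjOn ((f c)^[n]) (ball v s))
    (hder : ∀ z ∈ ball v s, κ / s ≤ ‖deriv ((f c)^[n]) z‖) :
    volume (SL c r (N + m) ∩ ball v s) ≤
      ENNReal.ofReal ((1 / κ ^ 2) * s ^ 2 * (volume (SL c r N)).toReal) := by
  set A := SL c r (N + m) ∩ ball v s with hA
  have hAm : MeasurableSet A := (measurableSet_SL c r (N + m)).inter measurableSet_ball
  have h1 := lintegral_holo (differentiable_fn c n) hAm (hinj.mono inter_subset_right) (fun _ => 1)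
  simp only [mul_one, lintegral_one, Measure.restrict_apply_univ] at h1
  have h2 : (f c)^[n] '' A ⊆ SL c r N := by
    rintro _ ⟨z, hz, rfl⟩
    have h3 : z ∈ SL c r ((N + m - n) + n) := by
      rw [Nat.sub_add_cancel (by omega)]
      exact hz.1
    have h4 : (f c)^[n] z ∈ SL c r (N + m - n) := by
      have h5 : ‖(f c)^[(N + m - n) + n] z‖ ≤ r := h3
      rw [Function.iterate_add_apply] at h5
      exact h5
    exact SL_anti hc hr (by omega) h4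
  have h3 : ENNReal.ofReal ((κ / s) ^ 2) * volume A ≤ volume (SL c r N) := by
    calc ENNReal.ofReal ((κ / s) ^ 2) * volume A = ∫⁻ z in A, ENNReal.ofReal ((κ / s) ^ 2) := by
          rw [setLIntegral_const]
      _ ≤ ∫⁻ z in A, ENNReal.ofReal (‖deriv ((f c)^[n]) z‖ ^ 2) := by
          apply setLIntegral_mono' hAm
          intro z hz
          apply ENNReal.ofReal_le_ofReal
          exact pow_le_pow_left₀ (by positivity) (hder z hz.2) 2
      _ = volume ((f c)^[n] '' A) := h1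
      _ ≤ _ := measure_mono h2
  have h4 : volume A ≠ ⊤ := ne_top_of_le_ne_top (vol_SL_ne_top hc hr (N + m))
    (measure_mono inter_subset_left)
  rw [← ENNReal.ofReal_toReal h4]
  apply ENNReal.ofReal_le_ofReal
  have h5 := ENNReal.toReal_mono (vol_SL_ne_top hc hr N) h3
  rw [ENNReal.toReal_mul, ENNReal.toReal_ofReal (by positivity)] at h5
  have h6 : (volume A).toReal = (1 / κ ^ 2) * s ^ 2 * ((κ / s) ^ 2 * (volume A).toReal) := by
    field_simp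
  rw [h6]
  gcongr

theorem vol_pre {c : ℂ} {δ : ℝ} (hδ : 0 < δ) {S : Set ℂ} (hS : MeasurableSet S) {X : ℝ}
    (h : ∫⁻ w in S ∩ ball c (δ ^ 2), ENNReal.ofReal (1 / ‖w - c‖) ≤ ENNReal.ofReal X) :
    volume ((f c) ⁻¹' S ∩ ball 0 δ) ≤ ENNReal.ofReal X := by
  have h1 : (f c) ⁻¹' S ∩ ball 0 δ = (f c) ⁻¹' (S ∩ ball c (δ ^ 2)) := by
    ext y
    simp only [mem_inter_iff, mem_preimage, mem_ball, dist_zero_right]
    have h2 : dist (f c y) c < δ ^ 2 ↔ ‖y‖ < δ := by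
      unfold f
      rw [dist_eq_norm, add_sub_cancel_right, norm_pow]
      exact pow_lt_pow_iff_left₀ (norm_nonneg _) hδ.le (by norm_num)
    rw [h2]
  have h2 := dual c (S := S ∩ ball c (δ ^ 2)) (hS.inter measurableSet_ball) (ψ := fun _ => 1)
    measurable_const
  rw [lintegral_one, Measure.restrict_apply_univ] at h2
  rw [h1, h2]
  refine le_trans (lintegral_mono fun w => ?_) h
  beta_reduce
  have h3 : (1 + 1 : ENNReal) = ENNReal.ofReal 2 := by norm_num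
  rw [h3, ← ENNReal.ofReal_mul (by norm_num)]
  apply ENNReal.ofReal_le_ofReal
  by_cases h0 : ‖w - c‖ = 0
  · rw [h0]; simp
  · have : 0 < ‖w - c‖ := lt_of_le_of_ne (norm_nonneg _) (Ne.symm h0)
    rw [mul_one_div, div_le_div_iff₀ (by positivity) this]
    linarith

/-- The real recursion near a Misiurewicz parameter. -/
theorem recursion {L k : ℕ} {c₀ : ℂ} (h : Orb L k c₀ c₀) (hc₀ : ‖c₀‖ ≤ 2) {r : ℝ} (hr : 4 ≤ r)
    (hexp : ∃ ρ κ s₀ C : ℝ, 0 < ρ ∧ 0 < κ ∧ 0 < s₀ ∧ 0 < C ∧ ∀ c v : ℂ, ‖c - c₀‖ ≤ ρ →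
      ‖v - c₀‖ ≤ ρ →
      Orb L k c v → ∀ s : ℝ, 0 < s → s ≤ s₀ → ∃ n : ℕ, (n : ℝ) ≤ C * (1 + |Real.log s|) ∧
        InjOn ((f c)^[n]) (ball v s) ∧ ∀ z ∈ ball v s, κ / s ≤ ‖deriv ((f c)^[n]) z‖) :
    ∃ (ε₀ C B K C₈ : ℝ) (i₀ : ℕ), 0 < ε₀ ∧ ε₀ ≤ 1 ∧ 0 ≤ C ∧ 0 ≤ B ∧ 0 ≤ K ∧ 0 ≤ C₈ ∧
      ∀ (c : ℂ), c ≠ c₀ → ‖c - c₀‖ ≤ ε₀ → ∃ (a : ℕ → ℝ) (m : ℕ), (∀ n, 0 ≤ a n) ∧ Antitone a ∧
        a 0 ≤ B ∧ (∀ n, a (n + (m + i₀)) ≤ a n / 2 + C₈ * ‖c - c₀‖ * √(a n)) ∧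
        (m : ℝ) ≤ C * (1 + |Real.log ‖c - c₀‖|) ∧
        ∀ n, volume (SL c r n) ≤ ENNReal.ofReal (K * a n) := by
  obtain ⟨h₀, hcont, h1, hsup⟩ := exists_super h r
  obtain ⟨H, hH⟩ := (isCompact_closedBall (0 : ℂ) r).exists_bound_of_continuousOn hcont.continuousOn
  have hH' : ∀ z, ‖z‖ ≤ r → h₀ z ≤ H := fun z hz =>
    (le_abs_self _).trans (hH z (mem_closedBall_zero_iff.mpr hz))
  have hH0 : 1 ≤ H := (h1 0).trans (hH' 0 (by simpa using (by linarith : (0 : ℝ) ≤ r)))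
  obtain ⟨θ, hθ0, hθ1, hpert⟩ := perturb hcont h1 (by linarith : (0 : ℝ) < r) hsup
  obtain ⟨ρ₁, C₃, hρ₁, hC₃, hcontin⟩ := cont h (repelling h)
  obtain ⟨ρ₂, κ, s₀', C₄, hρ₂, hκ, hs₀', hC₄, hexp⟩ := hexp
  set s₀ := min s₀' 1 with hs₀
  have hs₀0 : 0 < s₀ := by positivity
  have hs₀1 : s₀ ≤ 1 := min_le_right _ _
  have hs₀2 : s₀ ≤ s₀' := min_le_left _ _
  obtain ⟨C₅, hC₅, hnear⟩ := near_crit (1 / κ ^ 2) s₀ (by positivity) hs₀0
  obtain ⟨ρ₃, q₀, δ₀, d, M, hρ₃, hq₀, hδ₀, hd, hM, hunif⟩ := uniform_consts h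
  -- constants
  set K : ℝ := (r + M) ^ (L + 1) with hK
  have hK1 : 1 ≤ K := one_le_pow₀ (by linarith)
  set C₇ : ℝ := H / q₀ * C₅ * K with hC₇
  have hC₇0 : 0 < C₇ := by positivity
  -- δ
  obtain ⟨δ, hδ, hδ1, hδ2, hδ3⟩ : ∃ δ : ℝ, 0 < δ ∧ δ ≤ δ₀ ∧ δ ^ 2 ≤ s₀ / 8 ∧
      C₇ * δ ^ 2 ≤ (1 - θ) / 4 := by
    set D := min 1 (min δ₀ (min (s₀ / 8) ((1 - θ) / (4 * C₇)))) with hD
    have hD0 : 0 < D := by
      have : 0 < 1 - θ := by linarith
      positivity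
    have hD1 : D ≤ 1 := min_le_left _ _
    have hDD : D ^ 2 ≤ D := by nlinarith
    refine ⟨D, hD0, (min_le_right _ _).trans (min_le_left _ _), ?_, ?_⟩
    · exact hDD.trans ((min_le_right _ _).trans ((min_le_right _ _).trans (min_le_left _ _)))
    · have h2 : D ≤ (1 - θ) / (4 * C₇) :=
        (min_le_right _ _).trans ((min_le_right _ _).trans (min_le_right _ _))
      have h3 : D * (4 * C₇) ≤ 1 - θ := by rwa [le_div_iff₀ (by positivity)] at h2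
      have h4 := mul_le_mul_of_nonneg_left hDD hC₇0.le
      linarith
  obtain ⟨ρ₄, hρ₄, hpert⟩ := hpert δ hδ
  obtain ⟨i₀, hi₀⟩ : ∃ i₀ : ℕ, θ ^ i₀ ≤ 1 / 4 := by
    obtain ⟨i, hi⟩ := exists_pow_lt_of_lt_one (by norm_num : (0 : ℝ) < 1 / 4) hθ1
    exact ⟨i, hi.le⟩
  set ρ := min (min ρ₁ ρ₂) (min ρ₃ ρ₄) with hρ
  have hρ0 : 0 < ρ := by positivity
  set ε₀ := min 1 (min (ρ / (1 + C₃)) (s₀ / (8 * (1 + C₃)))) with hε₀
  have hε₀0 : 0 < ε₀ := by positivity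
  set B : ℝ := H * ((L + 1) * ((1 / d) ^ L * (8 * (r + M + 1)))) with hB
  set C₈ : ℝ := C₇ * (1 + C₃) / (1 - θ) with hC₈
  have h1θ : 0 < 1 - θ := by linarith
  set E : ℝ := |Real.log (1 + C₃)| with hE
  have hE0 : 0 ≤ E := abs_nonneg _
  refine ⟨ε₀, C₄ * (1 + E) + 1, B, K, C₈, i₀ + 1, hε₀0, min_le_left _ _, by positivity,
    by positivity, by linarith, by positivity, ?_⟩
  intro c hcc hce
  have he0 : 0 < ‖c - c₀‖ := norm_pos_iff.mpr (sub_ne_zero.mpr hcc)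
  have he1 : ‖c - c₀‖ ≤ ρ / (1 + C₃) := hce.trans ((min_le_right _ _).trans (min_le_left _ _))
  have he2 : ‖c - c₀‖ ≤ s₀ / (8 * (1 + C₃)) :=
    hce.trans ((min_le_right _ _).trans (min_le_right _ _))
  have he3 : ‖c - c₀‖ ≤ 1 := hce.trans (min_le_left _ _)
  rw [le_div_iff₀ (by positivity)] at he1 he2
  have hp0 : 0 ≤ C₃ * ‖c - c₀‖ := by positivity
  have he1' : ‖c - c₀‖ + C₃ * ‖c - c₀‖ ≤ ρ := by
    have h2 : ‖c - c₀‖ * (1 + C₃) = ‖c - c₀‖ + C₃ * ‖c - c₀‖ := by ring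
    linarith
  have hcρ : ‖c - c₀‖ ≤ ρ := by linarith
  have hρ1 : ρ ≤ ρ₁ := (min_le_left _ _).trans (min_le_left _ _)
  have hρ2 : ρ ≤ ρ₂ := (min_le_left _ _).trans (min_le_right _ _)
  have hρ3 : ρ ≤ ρ₃ := (min_le_right _ _).trans (min_le_left _ _)
  have hρ4 : ρ ≤ ρ₄ := (min_le_right _ _).trans (min_le_right _ _)
  have hc3 : ‖c‖ ≤ 3 := by
    have h2 : ‖c‖ ≤ ‖c - c₀‖ + ‖c₀‖ := by
      calc ‖c‖ = ‖(c - c₀) + c₀‖ := by congr 1; ring
        _ ≤ _ := norm_add_le _ _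
    linarith
  obtain ⟨v, hv, horb⟩ := hcontin c (hcρ.trans hρ1)
  have hvρ : ‖v - c₀‖ ≤ ρ := by linarith
  set η := (1 + C₃) * ‖c - c₀‖ with hη
  have hη0 : 0 < η := by positivity
  have hη1 : ‖c - v‖ ≤ η := by
    have h2 : ‖c - v‖ ≤ ‖c - c₀‖ + ‖v - c₀‖ := by
      calc ‖c - v‖ = ‖(c - c₀) - (v - c₀)‖ := by congr 1; ring
        _ ≤ _ := norm_sub_le _ _
    have h3 : η = ‖c - c₀‖ + C₃ * ‖c - c₀‖ := by rw [hη]; ring
    linarith
  have hη2 : η ≤ s₀ / 8 := by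
    have h3 : ‖c - c₀‖ * (8 * (1 + C₃)) = 8 * η := by rw [hη]; ring
    linarith
  obtain ⟨hu1, hu2, hu3⟩ := hunif c v (hcρ.trans hρ3) (hvρ.trans hρ3)
  have hQK : ∀ z, ‖z‖ ≤ r → ‖QQ L c v z‖ ≤ K := fun z hz => QQ_upper hu3 hz
  -- number of steps
  set m := ⌈C₄ * (1 + |Real.log η|)⌉₊ with hm
  -- the masses
  have hA0 : AA L c v r h₀ 0 ≤ ENNReal.ofReal B := by
    have h2 := mass_bound (L := L) (c := c) (v := v) hd (by linarith : 0 < r) hM hu2 hu3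
    calc AA L c v r h₀ 0 ≤ ∫⁻ z in closedBall 0 r, ENNReal.ofReal (h₀ z / ‖QQ L c v z‖) :=
          lintegral_mono_set (SL_sub hc3 hr 0)
      _ ≤ ∫⁻ z in closedBall 0 r, ENNReal.ofReal H * ENNReal.ofReal (1 / ‖QQ L c v z‖) := by
          apply setLIntegral_mono' measurableSet_closedBall
          intro z hz
          rw [← ENNReal.ofReal_mul (by linarith)]
          apply ENNReal.ofReal_le_ofReal
          rw [mul_one_div]
          exact div_le_div_of_nonneg_right (hH' z (mem_closedBall_zero_iff.mp hz)) (norm_nonneg _)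
      _ = ENNReal.ofReal H * ∫⁻ z in closedBall 0 r, ENNReal.ofReal (1 / ‖QQ L c v z‖) :=
          lintegral_const_mul' _ _ ENNReal.ofReal_ne_top
      _ ≤ ENNReal.ofReal H * ENNReal.ofReal ((L + 1) * ((1 / d) ^ L * (8 * (r + M + 1)))) := by
          gcongr
      _ = ENNReal.ofReal B := by rw [← ENNReal.ofReal_mul (by linarith)]
  have hAanti : Antitone (AA L c v r h₀) := AA_anti hc3 hr h₀
  have hAfin : ∀ n, AA L c v r h₀ n ≠ ⊤ := fun n =>
    ne_top_of_le_ne_top ENNReal.ofReal_ne_top ((hAanti (Nat.zero_le n)).trans hA0)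
  set a : ℕ → ℝ := fun n => (AA L c v r h₀ n).toReal with ha
  have ha0 : ∀ n, 0 ≤ a n := fun n => ENNReal.toReal_nonneg
  have haanti : Antitone a := fun i j hij => ENNReal.toReal_mono (hAfin i) (hAanti hij)
  have haB : a 0 ≤ B := by
    have := ENNReal.toReal_mono ENNReal.ofReal_ne_top hA0
    rwa [ENNReal.toReal_ofReal (by positivity)] at this
  have hvol : ∀ n, volume (SL c r n) ≤ ENNReal.ofReal (K * a n) := by
    intro n
    have h2 := vol_le_AA (L := L) (c := c) (v := v) hc3 hr h1 hQK n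
    rw [ENNReal.ofReal_mul (by linarith), ENNReal.ofReal_toReal (hAfin n)]
    exact h2
  have hvolr : ∀ n, (volume (SL c r n)).toReal ≤ K * a n := by
    intro n
    have h2 := ENNReal.toReal_mono ENNReal.ofReal_ne_top (hvol n)
    rwa [ENNReal.toReal_ofReal (mul_nonneg (by linarith) (ha0 n))] at h2
  -- the recursion
  have hrec : ∀ n, a (n + m + 1) ≤ θ * a (n + m) + (C₇ * δ ^ 2 * a n + C₇ * η * √(a n)) := by
    intro n
    set V := (volume (SL c r n)).toReal with hV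
    have hV0 : 0 ≤ V := ENNReal.toReal_nonneg
    have hsc : ∀ s : ℝ, η ≤ s → s ≤ s₀ → volume (SL c r (n + m) ∩ ball v s) ≤
        ENNReal.ofReal ((1 / κ ^ 2) * s ^ 2 * V) := by
      intro s hs1 hs2
      have hs0 : 0 < s := hη0.trans_le hs1
      obtain ⟨n', hn1, hn2, hn3⟩ := hexp c v (hcρ.trans hρ2) (hvρ.trans hρ2) horb s hs0
        (hs2.trans hs₀2)
      have hn' : n' ≤ m := by
        have h2 : |Real.log s| ≤ |Real.log η| := by
          rw [abs_of_nonpos (Real.log_nonpos hs0.le (by linarith)),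
            abs_of_nonpos (Real.log_nonpos hη0.le (by linarith))]
          exact neg_le_neg (Real.log_le_log hη0 hs1)
        have h3 : (n' : ℝ) ≤ C₄ * (1 + |Real.log η|) := hn1.trans (by gcongr)
        exact_mod_cast h3.trans (Nat.le_ceil _)
      exact vol_scale hs0 hκ hc3 hr hn' hn2 hn3
    have h2 := hnear c v η V δ (SL c r (n + m)) (measurableSet_SL c r (n + m)) hη0 hη1 hV0 hδ hη2
      hδ2 hsc
    have h3 := vol_pre hδ (measurableSet_SL c r (n + m)) h2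
    rw [← SL_succ] at h3
    have h4 := rec_step horb hc3 hr hcont h1 hδ hθ0 hH' hq₀
      (fun z hz => hu1 z (hz.trans_le hδ1)) (hpert c v (hcρ.trans hρ4) (hvρ.trans hρ4)) (n + m)
    have h5 : AA L c v r h₀ (n + m + 1) ≤ ENNReal.ofReal (θ * a (n + m) +
        H / q₀ * (C₅ * (δ ^ 2 * V + η * √V))) := by
      refine h4.trans ?_
      rw [ENNReal.ofReal_add (mul_nonneg hθ0.le (ha0 _)) (by positivity),
        ENNReal.ofReal_mul hθ0.le, ENNReal.ofReal_toReal (hAfin _),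
        ENNReal.ofReal_mul (by positivity)]
      gcongr
    have h6 := ENNReal.toReal_mono ENNReal.ofReal_ne_top h5
    rw [ENNReal.toReal_ofReal (add_nonneg (mul_nonneg hθ0.le (ha0 _)) (by positivity))] at h6
    have h7 : a (n + m + 1) ≤ θ * a (n + m) + H / q₀ * (C₅ * (δ ^ 2 * V + η * √V)) := h6
    have h8 : V ≤ K * a n := hvolr n
    have h9 : √V ≤ K * √(a n) := by
      calc √V ≤ √(K * a n) := Real.sqrt_le_sqrt h8
        _ = √K * √(a n) := Real.sqrt_mul (by linarith) _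
        _ ≤ K * √(a n) := by
            have : √K ≤ K := by
              rw [Real.sqrt_le_left (by linarith)]
              exact le_self_pow₀ hK1 (by norm_num)
            gcongr
    have h10 : H / q₀ * (C₅ * (δ ^ 2 * V + η * √V)) ≤ C₇ * δ ^ 2 * a n + C₇ * η * √(a n) := by
      calc H / q₀ * (C₅ * (δ ^ 2 * V + η * √V)) ≤
          H / q₀ * (C₅ * (δ ^ 2 * (K * a n) + η * (K * √(a n)))) := by gcongr
        _ = _ := by rw [hC₇]; ring
    linarith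
  refine ⟨a, m, ha0, haanti, haB, ?_, ?_, hvol⟩
  · intro n
    have h2 := seq_block hθ0.le hθ1 (by positivity : 0 ≤ C₇ * δ ^ 2)
      (by positivity : 0 ≤ C₇ * η) ha0 haanti hrec i₀ n
    have h3 : a (n + (m + (i₀ + 1))) ≤ a (n + m + i₀) := haanti (by omega)
    have h4 : (C₇ * δ ^ 2 * a n + C₇ * η * √(a n)) / (1 - θ) ≤
        a n / 4 + C₈ * ‖c - c₀‖ * √(a n) := by
      rw [div_le_iff₀ h1θ]
      have h5 : (a n / 4 + C₈ * ‖c - c₀‖ * √(a n)) * (1 - θ) =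
          (1 - θ) / 4 * a n + C₇ * η * √(a n) := by
        rw [hC₈, hη]
        field_simp
      rw [h5]
      have h6 := mul_le_mul_of_nonneg_right hδ3 (ha0 n)
      linarith
    have h5 : θ ^ i₀ * a n ≤ 1 / 4 * a n := mul_le_mul_of_nonneg_right hi₀ (ha0 n)
    linarith
  · have h2 : (m : ℝ) ≤ C₄ * (1 + |Real.log η|) + 1 := (Nat.ceil_lt_add_one (by positivity)).le
    have h3 : |Real.log η| ≤ E + |Real.log ‖c - c₀‖| := by
      rw [hη, Real.log_mul (by positivity) he0.ne']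
      exact abs_add_le _ _
    have h4 : 0 ≤ |Real.log ‖c - c₀‖| := abs_nonneg _
    have h5 : C₄ * (1 + |Real.log η|) ≤ C₄ * (1 + (E + |Real.log ‖c - c₀‖|)) := by gcongr
    have h6 : (C₄ * (1 + E) + 1) * (1 + |Real.log ‖c - c₀‖|) =
        C₄ * (1 + (E + |Real.log ‖c - c₀‖|)) + 1 + |Real.log ‖c - c₀‖| +
          C₄ * (E * |Real.log ‖c - c₀‖|) := by ring
    have h7 := mul_nonneg hC₄.le (mul_nonneg hE0 h4)
    linarith

end Pool.Agent.TH279.MZ
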