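import Mathlib
import Pool.Prelude.Def_F_c31e40fa
import Pool.Agent.H548R3.MB.Eff2
import Pool.Agent.H713R2.AR.T1
import Pool.Agent.TH136.Tip.Main
import Pool.Agent.TH626.J1685
import Pool.Agent.TH279.MZ.Level

set_option autoImplicit false

open Set Filter Metric MeasureTheory

namespace Pool.Agent.TH279.MZ

open Pool.Agent.H713R2 Pool.Agent.H712R2 Pool.Agent.H713R2.AR Pool.Agent.H548R3.MB
open Pool.Agent.TH136.Tip (KJ KJ_sub_ball norm_le_two sqrt_moments)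

theorem KJ_sub {c : ℂ} {r : ℝ} (hc : ‖c‖ ≤ 3) (hr : 4 ≤ r) (n : ℕ) : KJ c ⊆ SL c r n := by
  intro z hz
  by_contra hcon
  have hcon' : r < ‖(f c)^[n] z‖ := not_le.mp hcon
  apply hz
  show Tendsto (fun n => (f c)^[n] z) atTop (Bornology.cobounded ℂ)
  set w := (f c)^[n] z with hw
  have h3 : ∀ j : ℕ, 4 * 2 ^ j ≤ ‖(f c)^[j] w‖ := by
    intro j
    induction j with
    | zero => simp; linarith
    | succ j ih =>
      rw [Function.iterate_succ_apply']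
      set v := (f c)^[j] w with hv
      have h4 : ‖v‖ ^ 2 ≤ ‖f c v‖ + ‖c‖ := by
        rw [← norm_pow]
        calc ‖v ^ 2‖ = ‖f c v - c‖ := by congr 1; unfold f; ring
          _ ≤ _ := norm_sub_le _ _
      have h6 : (1 : ℝ) ≤ 2 ^ j := one_le_pow₀ (by norm_num)
      rw [pow_succ]
      nlinarith
  rw [← tendsto_norm_atTop_iff_cobounded]
  rw [← tendsto_add_atTop_iff_nat n]
  have h4 : Tendsto (fun j : ℕ => 4 * (2 : ℝ) ^ j) atTop atTop :=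
    (tendsto_pow_atTop_atTop_of_one_lt (by norm_num)).const_mul_atTop (by norm_num)
  apply tendsto_atTop_mono _ h4
  intro j
  rw [Function.iterate_add_apply]
  exact h3 j

theorem mem_M_of_preper {c₀ : ℂ} (hpp : ∃ m n : ℕ, 1 ≤ n ∧ (f c₀)^[m + n] 0 = (f c₀)^[m] 0) :
    c₀ ∈ N62a1eb23.multibrotSet 2 := by
  obtain ⟨m, n, hn, h⟩ := hpp
  intro hT
  have hT' : Tendsto (fun k => (f c₀)^[k] 0) atTop (Bornology.cobounded ℂ) := hT
  rw [← tendsto_norm_atTop_iff_cobounded] at hT'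
  have h1 : ∀ j, (f c₀)^[m + n * j] 0 = (f c₀)^[m] 0 := by
    intro j
    induction j with
    | zero => simp
    | succ j ih =>
      rw [show m + n * (j + 1) = n + (m + n * j) by ring, Function.iterate_add_apply, ih,
        ← Function.iterate_add_apply, add_comm n m, h]
  have h2 := (hT'.eventually_gt_atTop ‖(f c₀)^[m] 0‖)
  obtain ⟨N, hN⟩ := eventually_atTop.mp h2
  have h3 := hN (m + n * N) (by nlinarith)
  rw [h1] at h3
  exact lt_irrefl _ h3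

/-- The area of level sets near a Misiurewicz parameter. -/
theorem level_area {c₀ : ℂ} (hpp : ∃ m n : ℕ, 1 ≤ n ∧ (f c₀)^[m + n] 0 = (f c₀)^[m] 0)
    (hnp : ∀ p : ℕ, 1 ≤ p → (f c₀)^[p] 0 ≠ 0) {r : ℝ} (hr : 4 ≤ r) :
    ∃ C ε₀ : ℝ, 0 ≤ C ∧ 0 < ε₀ ∧ ∀ c : ℂ, c ≠ c₀ → ‖c - c₀‖ ≤ ε₀ →
    ∃ n : ℕ, 2 ≤ n ∧ (n : ℝ) ≤ C * (1 + |Real.log ‖c - c₀‖|) ^ 2 ∧
      volume {z | ‖(fun z : ℂ => z ^ 2 + c)^[n] z‖ ≤ r} ≤ ENNReal.ofReal (C * ‖c - c₀‖ ^ 2) ∧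
      KJ c ⊆ {z | ‖(fun z : ℂ => z ^ 2 + c)^[n] z‖ ≤ r} := by
  obtain ⟨L, k, horb⟩ := orb_of_preper hpp hnp
  have hc₀ : ‖c₀‖ ≤ 2 := norm_le_two (mem_M_of_preper hpp)
  obtain ⟨ε₀, C, B, K, C₈, i₀, hε₀, hε₀1, hC, hB, hK, hC₈, H⟩ := recursion horb hc₀ hr
    (Pool.Agent.TH626.J1685.expand horb (repelling horb))
  set C' : ℝ := max (K * (B + 16 * C₈ ^ 2)) (8 * (C + i₀) + 4 * (C + i₀) + 2) with hC'
  refine ⟨C', ε₀, ?_, hε₀, ?_⟩
  · exact le_trans (by positivity) (le_max_left _ _)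
  intro c hcc hce
  obtain ⟨a, m, ha0, hanti, haB, hrec, hm, hvol⟩ := H c hcc hce
  have he0 : 0 < ‖c - c₀‖ := norm_pos_iff.mpr (sub_ne_zero.mpr hcc)
  set e := ‖c - c₀‖ with he
  have he1 : e ≤ 1 := hce.trans hε₀1
  have hc3 : ‖c‖ ≤ 3 := by
    have h2 : ‖c‖ ≤ ‖c - c₀‖ + ‖c₀‖ := by
      calc ‖c‖ = ‖(c - c₀) + c₀‖ := by congr 1; ring
        _ ≤ _ := norm_add_le _ _
    linarith
  set ℓ := |Real.log e| with hℓ
  have hℓ0 : 0 ≤ ℓ := abs_nonneg _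
  set j := ⌈8 * ℓ⌉₊ with hj
  have hdec := seq_decay he0 hC₈ hB ha0 hanti haB hrec j
  have hpow : (3 / 4 : ℝ) ^ j ≤ e ^ 2 := by
    have h1 : 8 * ℓ ≤ j := Nat.le_ceil _
    have h2 : Real.log ((3 / 4 : ℝ) ^ j) ≤ Real.log (e ^ 2) := by
      rw [Real.log_pow, Real.log_pow]
      have h3 : Real.log e = -ℓ := by
        rw [hℓ, abs_of_nonpos (Real.log_nonpos he0.le he1), neg_neg]
      have h4 : Real.log (3 / 4) ≤ -(1 / 4) := by
        have := Real.log_le_sub_one_of_pos (by norm_num : (0 : ℝ) < 3 / 4)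
        linarith
      rw [h3]
      have h5 : (j : ℝ) * Real.log (3 / 4) ≤ (j : ℝ) * (-(1 / 4)) :=
        mul_le_mul_of_nonneg_left h4 (Nat.cast_nonneg j)
      push_cast
      linarith
    exact (Real.log_le_log_iff (by positivity) (by positivity)).mp h2
  have haj : a (j * (m + i₀)) ≤ (B + 16 * C₈ ^ 2) * e ^ 2 := by
    refine hdec.trans (max_le ?_ ?_)
    · have h2 : 0 ≤ 16 * C₈ ^ 2 * e ^ 2 := by positivity
      have h3 : B * (3 / 4) ^ j ≤ B * e ^ 2 := by gcongr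
      linarith
    · have h2 : 0 ≤ B * e ^ 2 := by positivity
      have h3 : (4 * C₈ * e) ^ 2 = 16 * C₈ ^ 2 * e ^ 2 := by ring
      linarith
  refine ⟨j * (m + i₀) + 2, by omega, ?_, ?_, KJ_sub hc3 hr _⟩
  · have h1 : (j : ℝ) ≤ 8 * ℓ + 1 := (Nat.ceil_lt_add_one (by positivity)).le
    have h2 : (m : ℝ) + i₀ ≤ (C + i₀) * (1 + ℓ) := by
      have : 0 ≤ (i₀ : ℝ) * ℓ := by positivity
      linarith
    have h3 : (j : ℝ) * (m + i₀) ≤ (8 * ℓ + 1) * ((C + i₀) * (1 + ℓ)) :=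
      mul_le_mul h1 h2 (by positivity) (by positivity)
    have h4 : (8 * ℓ + 1) * ((C + i₀) * (1 + ℓ)) ≤ 8 * (C + i₀) * (1 + ℓ) ^ 2 := by
      have h5 : 0 ≤ (C + i₀) * (1 + ℓ) := by positivity
      have h6 : 8 * (C + i₀) * (1 + ℓ) ^ 2 = (8 * ℓ + 8) * ((C + i₀) * (1 + ℓ)) := by ring
      rw [h6]
      exact mul_le_mul_of_nonneg_right (by linarith) h5
    have h7 : (2 : ℝ) ≤ 2 * (1 + ℓ) ^ 2 := by
      have : (1 : ℝ) ≤ (1 + ℓ) ^ 2 := one_le_pow₀ (by linarith)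
      linarith
    have h8 : C' ≥ 8 * (C + i₀) + 4 * (C + i₀) + 2 := le_max_right _ _
    have h9 : (8 * (C + i₀) + 2) * (1 + ℓ) ^ 2 ≤ C' * (1 + ℓ) ^ 2 := by
      apply mul_le_mul_of_nonneg_right _ (by positivity)
      have : 0 ≤ 4 * (C + i₀) := by positivity
      linarith
    push_cast
    linarith
  · have h1 : SL c r (j * (m + i₀) + 2) ⊆ SL c r (j * (m + i₀)) := SL_anti hc3 hr (by omega)
    refine (measure_mono h1).trans ((hvol _).trans ?_)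
    apply ENNReal.ofReal_le_ofReal
    calc K * a (j * (m + i₀)) ≤ K * ((B + 16 * C₈ ^ 2) * e ^ 2) := by gcongr
      _ = K * (B + 16 * C₈ ^ 2) * e ^ 2 := by ring
      _ ≤ C' * e ^ 2 := by
        apply mul_le_mul_of_nonneg_right (le_max_left _ _) (by positivity)

/-- The three upper bounds. -/
theorem upper {c₀ : ℂ} (hpp : ∃ m n : ℕ, 1 ≤ n ∧ (f c₀)^[m + n] 0 = (f c₀)^[m] 0)
    (hnp : ∀ p : ℕ, 1 ≤ p → (f c₀)^[p] 0 ≠ 0) :
    ∃ C : ℝ, 0 < C ∧ ∀ c ∈ N62a1eb23.multibrotSet 2, c ≠ c₀ →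
    volume (KJ c) ≤ ENNReal.ofReal (C * ‖c - c₀‖ ^ 2) ∧
    (∃ c' : ℂ, ‖c' - c‖ ≤ C * ‖c - c₀‖ ^ 2 ∧ ∃ p : ℕ, 1 ≤ p ∧
      (fun z : ℂ => z ^ 2 + c')^[p] 0 = 0 ∧
      N62a1eb23.IsAttractingCycle (fun z : ℂ => z ^ 2 + c') p 0 ∧
      (p : ℝ) ≤ C * (1 + |Real.log ‖c - c₀‖|) ^ 2) ∧
    (∀ V : Set ℂ, IsOpen V → IsPreconnected V →
      ((∀ c₁ ∈ V, ¬ ∃ m z, N62a1eb23.IsAttractingCycle (fun z : ℂ => z ^ 2 + c₁) m z) ∨
        V ⊆ N62a1eb23.multibrotSet 2) →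
      ∀ γ : ℂ → ℂ, DifferentiableOn ℂ γ (ball 0 1) → (∀ t ∈ ball (0 : ℂ) 1, γ t ∈ V) → γ 0 = c →
        ‖deriv γ 0‖ ≤ C * ‖c - c₀‖ ^ 2) := by
  set r : ℝ := 4 * Real.exp (KC 2 1) with hr
  have hKC : 0 ≤ KC 2 1 := KC_nonneg 2 1
  have hr4 : 4 ≤ r := by
    have := Real.one_le_exp hKC
    rw [hr]
    linarith
  obtain ⟨C, ε₀, hC, hε₀, H⟩ := level_area hpp hnp hr4
  have hpi := Real.pi_gt_three
  set V₀ : ℝ := (volume (closedBall (0 : ℂ) 4)).toReal with hV₀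
  have hV₀0 : 0 ≤ V₀ := ENNReal.toReal_nonneg
  have hV₀fin : volume (closedBall (0 : ℂ) 4) ≠ ⊤ := (isCompact_closedBall _ _).measure_lt_top.ne
  -- the area estimate
  set C₁ : ℝ := max (8 * C) (max (34 : ℝ) ((V₀ + 2) / ε₀ ^ 2)) with hC₁
  have hC₁a : 8 * C ≤ C₁ := le_max_left _ _
  have hC₁b : 34 ≤ C₁ := (le_max_left _ _).trans (le_max_right _ _)
  have hC₁c : (V₀ + 2) / ε₀ ^ 2 ≤ C₁ := (le_max_right _ _).trans (le_max_right _ _)
  have hC₁0 : 0 < C₁ := by linarith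
  have hfar : ∀ c : ℂ, ε₀ < ‖c - c₀‖ → V₀ + 2 ≤ C₁ * ‖c - c₀‖ ^ 2 := by
    intro c hce
    rw [div_le_iff₀ (by positivity)] at hC₁c
    have h2 : ε₀ ^ 2 ≤ ‖c - c₀‖ ^ 2 := pow_le_pow_left₀ hε₀.le hce.le 2
    nlinarith
  have harea : ∀ c ∈ N62a1eb23.multibrotSet 2, c ≠ c₀ →
      volume (KJ c) ≤ ENNReal.ofReal (C₁ * ‖c - c₀‖ ^ 2) := by
    intro c hc hc2
    rcases le_or_gt ‖c - c₀‖ ε₀ with hce | hce
    · obtain ⟨n, _, _, hn3, hn4⟩ := H c hc2 hce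
      refine (measure_mono hn4).trans (hn3.trans ?_)
      apply ENNReal.ofReal_le_ofReal
      have : 0 ≤ ‖c - c₀‖ ^ 2 := by positivity
      nlinarith
    · refine (measure_mono (KJ_sub_ball (norm_le_two hc))).trans ?_
      rw [← ENNReal.ofReal_toReal hV₀fin]
      apply ENNReal.ofReal_le_ofReal
      have := hfar c hce
      linarith
  refine ⟨C₁, hC₁0, ?_⟩
  intro c hc hc2
  have hL1 : 1 ≤ 1 + |Real.log ‖c - c₀‖| := by linarith [abs_nonneg (Real.log ‖c - c₀‖)]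
  have hLL : 1 ≤ (1 + |Real.log ‖c - c₀‖|) ^ 2 := one_le_pow₀ hL1
  refine ⟨harea c hc hc2, ?_, ?_⟩
  · rcases le_or_gt ‖c - c₀‖ ε₀ with hce | hce
    · obtain ⟨n, hn1, hn2, hn3, _⟩ := H c hc2 hce
      obtain ⟨J, rfl⟩ : ∃ J, n = J + 2 := ⟨n - 2, by omega⟩
      obtain ⟨c', ⟨p, hp1, hp2, hp3⟩, h⟩ := nearest (d := 2) le_rfl hc J
      refine ⟨c', ?_, p, hp1, hp3, att_of_centre (d := 2) le_rfl hp1 hp3, ?_⟩
      · have h1 := h 1 0 0 rfl
        rw [sqrt_moments] at h1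
        have hsub : GLev 2 c (KC 2 1 / ((2 : ℕ) : ℝ) ^ (J + 2)) ⊆
            {z | ‖(fun z : ℂ => z ^ 2 + c)^[J + 2] z‖ ≤ r} := by
          intro z hz
          have h2 := norm_iter_le (d := 2) le_rfl (A := 2) (by norm_num) (norm_le_two hc) z (J + 2)
          have hz' : green 2 c z ≤ KC 2 1 / ((2 : ℕ) : ℝ) ^ (J + 2) := hz
          refine h2.trans ?_
          rw [hr]
          have h3 : ((2 : ℕ) : ℝ) ^ (J + 2) * green 2 c z ≤ KC 2 1 := by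
            rw [le_div_iff₀ (by positivity)] at hz'
            linarith
          have := Real.exp_le_exp.mpr h3
          linarith
        have h2 : (volume (GLev 2 c (KC 2 1 / ((2 : ℕ) : ℝ) ^ (J + 2)))).toReal ≤
            C * ‖c - c₀‖ ^ 2 := by
          have h3 := ENNReal.toReal_mono ENNReal.ofReal_ne_top ((measure_mono hsub).trans hn3)
          rwa [ENNReal.toReal_ofReal (by positivity)] at h3
        have h3 : ((2 : ℕ) : ℝ) / Real.pi ≤ 1 := by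
          rw [div_le_one (by linarith)]
          push_cast
          linarith
        have h4 : (1 / 4 : ℝ) * ‖c' - c‖ ≤ C * ‖c - c₀‖ ^ 2 := by
          have h5 : (1 - (3 / 4 : ℝ) ^ 1) = 1 / 4 := by norm_num
          rw [h5] at h1
          refine h1.trans ?_
          calc ((2 : ℕ) : ℝ) / Real.pi * (volume (GLev 2 c (KC 2 1 / ((2 : ℕ) : ℝ) ^ (J + 2)))).toReal
              ≤ 1 * (C * ‖c - c₀‖ ^ 2) :=
                mul_le_mul h3 h2 ENNReal.toReal_nonneg (by norm_num)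
            _ = _ := one_mul _
        have h5 : 0 ≤ ‖c - c₀‖ ^ 2 := by positivity
        nlinarith
      · have h1 : (p : ℝ) ≤ ((J + 2 : ℕ) : ℝ) := by exact_mod_cast hp2
        refine h1.trans (hn2.trans ?_)
        have : C ≤ C₁ := by linarith
        gcongr
    · refine ⟨0, ?_, 1, le_rfl, by simp, ?_, ?_⟩
      · rw [zero_sub, norm_neg]
        have := hfar c hce
        have := norm_le_two hc
        linarith
      · exact att_of_centre (d := 2) le_rfl le_rfl (by simp)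
      · push_cast
        nlinarith
  · intro V hV hVc hno γ hγ hγV hγc
    have h1 := main_T1 (d := 2) (a := 0) (b := 0) rfl hV hVc hγ hγV (by rw [hγc]; exact hc) hno
    rw [sqrt_moments, hγc] at h1
    have h2 : (volume (KK 2 c)).toReal ≤ C₁ * ‖c - c₀‖ ^ 2 := by
      have h3 := ENNReal.toReal_mono ENNReal.ofReal_ne_top (harea c hc hc2)
      rwa [ENNReal.toReal_ofReal (by positivity)] at h3
    have h3 : ((2 : ℕ) : ℝ) / Real.pi ≤ 1 := by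
      rw [div_le_one (by linarith)]
      push_cast
      linarith
    refine h1.trans ?_
    calc ((2 : ℕ) : ℝ) / Real.pi * (volume (KK 2 c)).toReal
        ≤ 1 * (C₁ * ‖c - c₀‖ ^ 2) := mul_le_mul h3 h2 ENNReal.toReal_nonneg (by norm_num)
      _ = _ := one_mul _

end Pool.Agent.TH279.MZ
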